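import Pool.Agent.H14.L1.Targets

/-!
# Board `l1c_modules`, row NUM: almost harmonic functions are almost constant
-/

set_option autoImplicit false

open Pool.Agent.H14.L1
open Filter Topology

namespace Pool.Agent.H4.L1C

/-- averaging operators on bounded functions -/
structure Avg {G : Type} (T : (G → ℝ) → (G → ℝ)) : Prop where
  bdd : ∀ (v : G → ℝ) (C : ℝ), (∀ x, |v x| ≤ C) → ∀ x, |T v x| ≤ C
  mono : ∀ (v w : G → ℝ) (C C' : ℝ), (∀ x, |v x| ≤ C) → (∀ x, |w x| ≤ C') → (∀ x, v x ≤ w x) →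
    ∀ x, T v x ≤ T w x
  lin : ∀ (v w : G → ℝ) (C C' : ℝ), (∀ x, |v x| ≤ C) → (∀ x, |w x| ≤ C') → ∀ a b c : ℝ,
    ∀ x, T (fun x => a * v x + b * w x + c) x = a * T v x + b * T w x + c

theorem Avg.comp {G : Type} {T S : (G → ℝ) → (G → ℝ)} (hT : Avg T) (hS : Avg S) :
    Avg (fun v => T (S v)) where
  bdd v C hv := hT.bdd _ C (hS.bdd v C hv)
  mono v w C C' hv hw h := hT.mono _ _ C C' (hS.bdd v C hv) (hS.bdd w C' hw)
    (hS.mono v w C C' hv hw h)
  lin v w C C' hv hw a b c x := by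
    have h1 : S (fun x => a * v x + b * w x + c) = fun x => a * S v x + b * S w x + c :=
      funext fun x => hS.lin v w C C' hv hw a b c x
    show T (S fun x => a * v x + b * w x + c) x = _
    rw [h1]
    exact hT.lin _ _ C C' (hS.bdd v C hv) (hS.bdd w C' hw) a b c x

theorem Avg.iter {G : Type} {T : (G → ℝ) → (G → ℝ)} (hT : Avg T) (k : ℕ) :
    Avg (T^[k]) := by
  induction k with
  | zero =>
    refine ⟨fun v C hv => hv, fun v w C C' hv hw h => h, fun v w C C' hv hw a b c x => rfl⟩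
  | succ k ih =>
    rw [Function.iterate_succ]
    exact ih.comp hT

variable {G : Type}

theorem num_summable {p : G → ℝ} (hp : ∀ x, 0 ≤ p x) (hs : HasSum p 1) {F : G → ℝ} {C : ℝ}
    (hF : ∀ s, |F s| ≤ C) : Summable fun s => p s * F s := by
  refine Summable.of_norm_bounded (g := fun s => p s * C) (hs.summable.mul_right C) fun s => ?_
  rw [norm_mul, Real.norm_eq_abs, Real.norm_eq_abs, abs_of_nonneg (hp s)]
  exact mul_le_mul_of_nonneg_left (hF s) (hp s)

theorem num_avg {p : G → ℝ} (hp : ∀ x, 0 ≤ p x) (hs : HasSum p 1) (σ : G → G → G) :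
    Avg (fun (v : G → ℝ) (x : G) => ∑' s, p s * v (σ x s)) where
  bdd v C hv x := by
    have h1 : Summable fun s => p s * v (σ x s) := num_summable hp hs fun s => hv _
    have h2 : Summable fun s => p s * C := hs.summable.mul_right C
    have h3 : ∑' s, p s * C = C := by rw [tsum_mul_right, hs.tsum_eq, one_mul]
    have h4 : ∀ s, p s * v (σ x s) ≤ p s * C := fun s =>
      mul_le_mul_of_nonneg_left ((abs_le.1 (hv _)).2) (hp s)
    have h5 : ∀ s, -(p s * C) ≤ p s * v (σ x s) := fun s => by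
      rw [← mul_neg]
      exact mul_le_mul_of_nonneg_left ((abs_le.1 (hv _)).1) (hp s)
    rw [abs_le]
    constructor
    · have := h2.neg.tsum_le_tsum h5 h1
      rw [tsum_neg, h3] at this
      exact this
    · have := h1.tsum_le_tsum h4 h2
      rw [h3] at this
      exact this
  mono v w C C' hv hw h x := by
    have h1 : Summable fun s => p s * v (σ x s) := num_summable hp hs fun s => hv _
    have h2 : Summable fun s => p s * w (σ x s) := num_summable hp hs fun s => hw _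
    exact h1.tsum_le_tsum (fun s => mul_le_mul_of_nonneg_left (h _) (hp s)) h2
  lin v w C C' hv hw a b c x := by
    have h1 : Summable fun s => p s * v (σ x s) := num_summable hp hs fun s => hv _
    have h2 : Summable fun s => p s * w (σ x s) := num_summable hp hs fun s => hw _
    have h3 : HasSum (fun s => p s * c) (1 * c) := hs.mul_right c
    have h4 := ((h1.hasSum.mul_left a).add (h2.hasSum.mul_left b)).add h3
    rw [one_mul] at h4
    show ∑' s, p s * (a * v (σ x s) + b * w (σ x s) + c) = _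
    rw [← h4.tsum_eq]
    exact tsum_congr fun s => by ring

theorem num_fubini {p : G → ℝ} (hp : ∀ x, 0 ≤ p x) (hs : HasSum p 1) {F : G → G → ℝ} {C : ℝ}
    (hF : ∀ s t, |F s t| ≤ C) :
    ∑' s, p s * ∑' t, p t * F s t = ∑' t, p t * ∑' s, p s * F s t := by
  have hsm : Summable (fun z : G × G => p z.1 * p z.2) :=
    hs.summable.mul_of_nonneg hs.summable hp hp
  have h1 : Summable (Function.uncurry fun s t => p s * p t * F s t) := by
    refine Summable.of_norm_bounded (g := fun z : G × G => p z.1 * p z.2 * C)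
      (hsm.mul_right C) ?_
    rintro ⟨s, t⟩
    show ‖p s * p t * F s t‖ ≤ p s * p t * C
    rw [norm_mul, Real.norm_eq_abs, Real.norm_eq_abs, abs_of_nonneg (mul_nonneg (hp s) (hp t))]
    exact mul_le_mul_of_nonneg_left (hF s t) (mul_nonneg (hp s) (hp t))
  have h2 := h1.tsum_comm
  have e1 : ∀ s, p s * ∑' t, p t * F s t = ∑' t, p s * p t * F s t := fun s => by
    rw [← tsum_mul_left]
    exact tsum_congr fun t => by ring
  have e2 : ∀ t, p t * ∑' s, p s * F s t = ∑' s, p s * p t * F s t := fun t => by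
    rw [← tsum_mul_left]
    exact tsum_congr fun s => by ring
  rw [tsum_congr e1, tsum_congr e2]
  exact h2.symm

theorem num_comm_iter {P L : (G → ℝ) → (G → ℝ)} (hL : Avg L)
    (hc : ∀ (v : G → ℝ) (C : ℝ), (∀ x, |v x| ≤ C) → P (L v) = L (P v)) (k : ℕ) :
    ∀ (v : G → ℝ) (C : ℝ), (∀ x, |v x| ≤ C) → P (L^[k] v) = L^[k] (P v) := by
  induction k with
  | zero => intro v C hv; rfl
  | succ k ih =>
    intro v C hv
    rw [Function.iterate_succ_apply, Function.iterate_succ_apply, ih (L v) C (hL.bdd v C hv),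
      hc v C hv]

theorem num_iter_eq {P L : (G → ℝ) → (G → ℝ)} (hP : Avg P) (hL : Avg L) (e : G)
    (hc : ∀ (v : G → ℝ) (C : ℝ), (∀ x, |v x| ≤ C) → P (L v) = L (P v))
    (he : ∀ v, P v e = L v e) (k : ℕ) :
    ∀ (v : G → ℝ) (C : ℝ), (∀ x, |v x| ≤ C) → P^[k] v e = L^[k] v e := by
  induction k with
  | zero => intro v C hv; rfl
  | succ k ih =>
    intro v C hv
    rw [Function.iterate_succ_apply, ih (P v) C (hP.bdd v C hv),
      ← num_comm_iter hL hc k v C hv, he, ← Function.iterate_succ_apply' L k v]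

theorem pf_NUM : T_NUM := by
  intro G _ p hp hs γ hγ ψ hψ δ₁ δ₂ η N hη hN hR hL
  -- the operators
  set P : (G → ℝ) → (G → ℝ) := fun v x => ∑' s, p s * v (x * s) with hPdef
  set L : (G → ℝ) → (G → ℝ) := fun v x => ∑' t, p t * v (t * x) with hLdef
  have aP : Avg P := num_avg hp hs fun x s => x * s
  have aL : Avg L := num_avg hp hs fun x t => t * x
  have hcomm : ∀ (v : G → ℝ) (C : ℝ), (∀ x, |v x| ≤ C) → P (L v) = L (P v) := by
    intro v C hv
    funext x
    show ∑' s, p s * ∑' t, p t * v (t * (x * s)) = ∑' t, p t * ∑' s, p s * v (t * x * s)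
    rw [num_fubini hp hs (F := fun s t => v (t * (x * s))) (C := C) fun s t => hv _]
    exact tsum_congr fun t => by
      congr 1
      exact tsum_congr fun s => by rw [mul_assoc]
  have hone : ∀ v, P v 1 = L v 1 := by
    intro v
    show ∑' s, p s * v (1 * s) = ∑' t, p t * v (t * 1)
    exact tsum_congr fun s => by rw [one_mul, mul_one]
  have hit := fun k => num_iter_eq aP aL (1 : G) hcomm hone k
  have hδ1 : 0 ≤ δ₁ := (norm_nonneg _).trans (hR 1)
  have hδ2 : 0 ≤ δ₂ := (norm_nonneg _).trans (hL 1)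
  -- the functions
  set u : G → ℝ := fun x => ‖ψ x‖ ^ 2 with hu
  set D : G → ℝ := fun x => ∑' s, p s * ‖ψ (x * s) - ψ x‖ ^ 2 with hD
  set r : G → ℝ := fun x => ∑' s, p s * ‖ψ (x * s) - ψ x‖ with hr
  have hd2 : ∀ x y, ‖ψ x - ψ y‖ ≤ 2 := fun x y => by
    have := norm_sub_le (ψ x) (ψ y)
    linarith [hψ x, hψ y]
  have hu1 : ∀ x, 0 ≤ u x ∧ u x ≤ 1 := fun x => by
    have h0 := norm_nonneg (ψ x)
    have h1 := hψ x
    refine ⟨by positivity, ?_⟩
    show ‖ψ x‖ ^ 2 ≤ 1
    nlinarith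
  have hub : ∀ x, |u x| ≤ 1 := fun x => by
    rw [abs_of_nonneg (hu1 x).1]; exact (hu1 x).2
  have hdd : ∀ x s, |‖ψ (x * s) - ψ x‖ ^ 2| ≤ 4 := fun x s => by
    have h0 := norm_nonneg (ψ (x * s) - ψ x)
    have h1 := hd2 (x * s) x
    rw [abs_of_nonneg (by positivity)]
    nlinarith
  have hdr : ∀ x s, |‖ψ (x * s) - ψ x‖| ≤ 4 := fun x s => by
    rw [abs_of_nonneg (norm_nonneg _)]
    linarith [hd2 (x * s) x]
  have hconst : ∀ c : ℝ, ∑' s, p s * c = c := fun c => by rw [tsum_mul_right, hs.tsum_eq, one_mul]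
  have hDs : ∀ x, Summable fun s => p s * ‖ψ (x * s) - ψ x‖ ^ 2 := fun x =>
    num_summable hp hs (hdd x)
  have hrs : ∀ x, Summable fun s => p s * ‖ψ (x * s) - ψ x‖ := fun x =>
    num_summable hp hs (hdr x)
  have hDb : ∀ x, |D x| ≤ 4 := fun x => by
    rw [abs_of_nonneg (tsum_nonneg fun s => mul_nonneg (hp s) (by positivity))]
    rw [← hconst 4]
    exact (hDs x).tsum_le_tsum
      (fun s => mul_le_mul_of_nonneg_left ((le_abs_self _).trans (hdd x s)) (hp s))
      (hs.summable.mul_right 4)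
  have hrb : ∀ x, |r x| ≤ 4 := fun x => by
    rw [abs_of_nonneg (tsum_nonneg fun s => mul_nonneg (hp s) (by positivity))]
    rw [← hconst 4]
    exact (hrs x).tsum_le_tsum
      (fun s => mul_le_mul_of_nonneg_left ((le_abs_self _).trans (hdr x s)) (hp s))
      (hs.summable.mul_right 4)
  have hpc : ∀ f : G → ℂ, (∀ s, ‖f s‖ ≤ 4) → Summable fun s => (p s : ℂ) * f s := fun f hf => by
    refine Summable.of_norm_bounded (g := fun s => p s * 4) (hs.summable.mul_right 4) fun s => ?_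
    rw [norm_mul, Complex.norm_real, Real.norm_eq_abs, abs_of_nonneg (hp s)]
    exact mul_le_mul_of_nonneg_left (hf s) (hp s)
  -- step 1
  have hD1 : ∀ x, D x ≤ 1 * P u x + (-1) * u x + 2 * δ₁ := by
    intro x
    have hS : Summable fun s => (p s : ℂ) * ψ (x * s) := hpc _ fun s => (hψ _).trans (by norm_num)
    set S : ℂ := ∑' s, (p s : ℂ) * ψ (x * s) with hSdef
    have hre : HasSum (fun s => p s * ((starRingEnd ℂ) (ψ x) * ψ (x * s)).re)
        ((starRingEnd ℂ) (ψ x) * S).re := by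
      have h1 := (hS.hasSum.mul_left ((starRingEnd ℂ) (ψ x)))
      have h2 := Complex.reCLM.hasSum h1
      have h3 : (fun s => p s * ((starRingEnd ℂ) (ψ x) * ψ (x * s)).re) =
          fun s => Complex.reCLM ((starRingEnd ℂ) (ψ x) * ((p s : ℂ) * ψ (x * s))) := by
        funext s
        rw [Complex.reCLM_apply, mul_left_comm, Complex.re_ofReal_mul]
      rw [h3]
      exact h2
    have hPu : HasSum (fun s => p s * u (x * s)) (P u x) :=
      (num_summable hp hs fun s => hub (x * s)).hasSum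
    have hux : HasSum (fun s => p s * u x) (u x) := by
      have := hs.mul_right (u x)
      rwa [one_mul] at this
    have hexp : D x = P u x + u x - 2 * ((starRingEnd ℂ) (ψ x) * S).re := by
      have h1 := (hPu.add hux).sub (hre.mul_left 2)
      show ∑' s, p s * ‖ψ (x * s) - ψ x‖ ^ 2 = _
      rw [← h1.tsum_eq]
      refine tsum_congr fun s => ?_
      have h2 : ‖ψ (x * s) - ψ x‖ ^ 2 = ‖ψ (x * s)‖ ^ 2 + ‖ψ x‖ ^ 2 -
          2 * ((starRingEnd ℂ) (ψ x) * ψ (x * s)).re := by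
        rw [← Complex.normSq_eq_norm_sq, ← Complex.normSq_eq_norm_sq, ← Complex.normSq_eq_norm_sq,
          Complex.normSq_sub, mul_comm ((starRingEnd ℂ) (ψ x)) (ψ (x * s))]
      rw [h2]
      show p s * (‖ψ (x * s)‖ ^ 2 + ‖ψ x‖ ^ 2 - 2 * ((starRingEnd ℂ) (ψ x) * ψ (x * s)).re) =
        p s * ‖ψ (x * s)‖ ^ 2 + p s * ‖ψ x‖ ^ 2 -
          2 * (p s * ((starRingEnd ℂ) (ψ x) * ψ (x * s)).re)
      ring
    have hSx : ((starRingEnd ℂ) (ψ x) * S).re ≥ u x - δ₁ := by
      have h1 : (starRingEnd ℂ) (ψ x) * S = (starRingEnd ℂ) (ψ x) * ψ x +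
          (starRingEnd ℂ) (ψ x) * (S - ψ x) := by ring
      have h2 : ((starRingEnd ℂ) (ψ x) * ψ x).re = u x := by
        rw [mul_comm, Complex.mul_conj, Complex.ofReal_re, Complex.normSq_eq_norm_sq]
      have h3 : |((starRingEnd ℂ) (ψ x) * (S - ψ x)).re| ≤ δ₁ := by
        refine (Complex.abs_re_le_norm _).trans ?_
        rw [norm_mul, RCLike.norm_conj]
        calc ‖ψ x‖ * ‖S - ψ x‖ ≤ 1 * δ₁ :=
              mul_le_mul (hψ x) (hR x) (norm_nonneg _) zero_le_one
          _ = δ₁ := one_mul _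
      rw [h1, Complex.add_re, h2]
      linarith [(abs_le.1 h3).1]
    rw [hexp]
    linarith
  have hPub : ∀ x, |P u x| ≤ 1 := aP.bdd u 1 hub
  have hrhsb : ∀ x, |1 * P u x + (-1) * u x + 2 * δ₁| ≤ 2 + 2 * δ₁ := fun x => by
    have h1 := abs_le.1 (hPub x)
    have h2 := hu1 x
    rw [abs_le]
    constructor <;> linarith [h1.1, h1.2, h2.1, h2.2]
  have hDk : ∀ k, P^[k] D 1 ≤ P^[k + 1] u 1 - P^[k] u 1 + 2 * δ₁ := by
    intro k
    have h1 := (aP.iter k).mono D (fun x => 1 * P u x + (-1) * u x + 2 * δ₁) 4 (2 + 2 * δ₁) hDb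
      hrhsb hD1 1
    rw [(aP.iter k).lin (P u) u 1 1 hPub hub 1 (-1) (2 * δ₁) 1] at h1
    rw [Function.iterate_succ_apply]
    linarith
  have hex : ∃ k ∈ Finset.range N, P^[k] D 1 ≤ 1 / N + 2 * δ₁ := by
    apply Finset.exists_le_of_sum_le (Finset.nonempty_range_iff.2 hN.ne')
    have h1 : ∑ k ∈ Finset.range N, P^[k] D 1 ≤
        ∑ k ∈ Finset.range N, ((P^[k + 1] u 1 - P^[k] u 1) + 2 * δ₁) :=
      Finset.sum_le_sum fun k _ => hDk k
    rw [Finset.sum_add_distrib, Finset.sum_range_sub (fun k => P^[k] u 1)] at h1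
    have h2 := (abs_le.1 ((aP.iter N).bdd u 1 hub 1)).2
    have h3 : (0 : ℝ) ≤ P^[0] u 1 := (hu1 1).1
    have hN' : (0 : ℝ) < N := by exact_mod_cast hN
    have h4 : ∑ k ∈ Finset.range N, ((1 : ℝ) / N + 2 * δ₁) =
        1 + ∑ k ∈ Finset.range N, 2 * δ₁ := by
      rw [Finset.sum_add_distrib, Finset.sum_const (1 / (N : ℝ)), Finset.card_range, nsmul_eq_mul,
        mul_one_div_cancel hN'.ne']
    rw [h4]
    linarith
  obtain ⟨k, hk, hkD⟩ := hex
  -- step 2
  have hr2 : ∀ x, r x ≤ 1 / (2 * η) * D x + 0 * D x + η / 2 := by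
    intro x
    have h1 : HasSum (fun s => 1 / (2 * η) * (p s * ‖ψ (x * s) - ψ x‖ ^ 2) + p s * (η / 2))
        (1 / (2 * η) * D x + 1 * (η / 2)) :=
      ((hDs x).hasSum.mul_left (1 / (2 * η))).add (hs.mul_right (η / 2))
    have h2 : r x ≤ 1 / (2 * η) * D x + 1 * (η / 2) := by
      rw [← h1.tsum_eq]
      refine (hrs x).tsum_le_tsum (fun s => ?_) h1.summable
      have h3 : ‖ψ (x * s) - ψ x‖ ≤ 1 / (2 * η) * ‖ψ (x * s) - ψ x‖ ^ 2 + η / 2 := by
        set z := ‖ψ (x * s) - ψ x‖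
        have h4 : 1 / (2 * η) * z ^ 2 + η / 2 - z = (z - η) ^ 2 / (2 * η) := by
          field_simp
          ring
        have h5 : 0 ≤ (z - η) ^ 2 / (2 * η) := by positivity
        linarith
      calc p s * ‖ψ (x * s) - ψ x‖ ≤ p s * (1 / (2 * η) * ‖ψ (x * s) - ψ x‖ ^ 2 + η / 2) :=
            mul_le_mul_of_nonneg_left h3 (hp s)
        _ = _ := by ring
    linarith
  have hb2 : ∀ x, |1 / (2 * η) * D x + 0 * D x + η / 2| ≤ 1 / (2 * η) * 4 + η / 2 := fun x => by
    have h1 : 0 ≤ D x := tsum_nonneg fun s => mul_nonneg (hp s) (by positivity)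
    have h2 := (abs_le.1 (hDb x)).2
    have h3 : 0 ≤ 1 / (2 * η) := by positivity
    have h4 : 0 ≤ 1 / (2 * η) * D x := mul_nonneg h3 h1
    have h5 : 1 / (2 * η) * D x ≤ 1 / (2 * η) * 4 := mul_le_mul_of_nonneg_left h2 h3
    rw [abs_le]
    constructor <;> linarith
  have hrk : P^[k] r 1 ≤ (η + (1 / N + 2 * δ₁) / η) / 2 := by
    have h1 := (aP.iter k).mono r (fun x => 1 / (2 * η) * D x + 0 * D x + η / 2) 4 _ hrb hb2 hr2 1
    rw [(aP.iter k).lin D D 4 4 hDb hDb (1 / (2 * η)) 0 (η / 2) 1] at h1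
    have h3 : 0 ≤ 1 / (2 * η) := by positivity
    have h2 : 1 / (2 * η) * P^[k] D 1 ≤ 1 / (2 * η) * (1 / N + 2 * δ₁) :=
      mul_le_mul_of_nonneg_left hkD h3
    have h4 : (η + (1 / N + 2 * δ₁) / η) / 2 = 1 / (2 * η) * (1 / N + 2 * δ₁) + η / 2 := by
      generalize (1 / (N : ℝ) + 2 * δ₁) = w
      field_simp
      ring
    rw [h4]
    linarith
  -- step 3
  have hr3 : ∀ x, r x ≤ 1 * L r x + 0 * L r x + 2 * δ₂ := by
    intro x
    have hpt : ∀ s, ‖ψ (x * s) - ψ x‖ ≤
        (∑' t, p t * ‖ψ (t * x * s) - ψ (t * x)‖) + 2 * δ₂ := by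
      intro s
      have hg : ∀ y, Summable fun t => (p t : ℂ) * γ t * ψ (t * y) := fun y => by
        have := hpc (fun t => γ t * ψ (t * y)) fun t => by
          rw [norm_mul]
          calc ‖γ t‖ * ‖ψ (t * y)‖ ≤ 1 * 1 :=
                mul_le_mul (hγ t) (hψ _) (norm_nonneg _) zero_le_one
            _ ≤ 4 := by norm_num
        exact this.congr fun t => by ring
      have h1 : ‖(∑' t, (p t : ℂ) * γ t * ψ (t * (x * s))) - ∑' t, (p t : ℂ) * γ t * ψ (t * x)‖ ≤
          ∑' t, p t * ‖ψ (t * x * s) - ψ (t * x)‖ := by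
        rw [← (hg (x * s)).tsum_sub (hg x)]
        have h2 : Summable fun t => p t * ‖ψ (t * x * s) - ψ (t * x)‖ :=
          num_summable hp hs (F := fun t => ‖ψ (t * x * s) - ψ (t * x)‖) (C := 4)
            fun t => hdr (t * x) s
        refine tsum_of_norm_bounded h2.hasSum fun t => ?_
        have h3 : (p t : ℂ) * γ t * ψ (t * (x * s)) - (p t : ℂ) * γ t * ψ (t * x) =
            (p t : ℂ) * (γ t * (ψ (t * x * s) - ψ (t * x))) := by
          rw [mul_assoc t x s]
          ring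
        rw [h3, norm_mul, norm_mul, Complex.norm_real, Real.norm_eq_abs, abs_of_nonneg (hp t)]
        refine mul_le_mul_of_nonneg_left ?_ (hp t)
        calc ‖γ t‖ * ‖ψ (t * x * s) - ψ (t * x)‖ ≤ 1 * ‖ψ (t * x * s) - ψ (t * x)‖ :=
              mul_le_mul_of_nonneg_right (hγ t) (norm_nonneg _)
          _ = _ := one_mul _
      have h4 := hL (x * s)
      have h5 := hL x
      set A := ∑' t, (p t : ℂ) * γ t * ψ (t * (x * s))
      set B := ∑' t, (p t : ℂ) * γ t * ψ (t * x)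
      have h6 : ψ (x * s) - ψ x = (A - B) - (A - ψ (x * s)) + (B - ψ x) := by ring
      rw [h6]
      calc ‖(A - B) - (A - ψ (x * s)) + (B - ψ x)‖ ≤
            ‖(A - B) - (A - ψ (x * s))‖ + ‖B - ψ x‖ := norm_add_le _ _
        _ ≤ ‖A - B‖ + ‖A - ψ (x * s)‖ + ‖B - ψ x‖ := by
          gcongr
          exact norm_sub_le _ _
        _ ≤ _ := by linarith
    have hFb : ∀ s t : G, |‖ψ (t * x * s) - ψ (t * x)‖| ≤ 4 := fun s t => hdr (t * x) s
    have hin : ∀ s : G, |∑' t, p t * ‖ψ (t * x * s) - ψ (t * x)‖| ≤ 4 := fun s => by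
      have h2 : Summable fun t => p t * ‖ψ (t * x * s) - ψ (t * x)‖ :=
        num_summable hp hs (F := fun t => ‖ψ (t * x * s) - ψ (t * x)‖) (C := 4)
          fun t => hdr (t * x) s
      rw [abs_of_nonneg (tsum_nonneg fun t => mul_nonneg (hp t) (norm_nonneg _)), ← hconst 4]
      exact h2.tsum_le_tsum
        (fun t => mul_le_mul_of_nonneg_left ((le_abs_self _).trans (hFb s t)) (hp t))
        (hs.summable.mul_right 4)
    have h7 : Summable fun s => p s * ∑' t, p t * ‖ψ (t * x * s) - ψ (t * x)‖ :=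
      num_summable hp hs hin
    have h8 : HasSum (fun s => p s * (∑' t, p t * ‖ψ (t * x * s) - ψ (t * x)‖) + p s * (2 * δ₂))
        ((∑' s, p s * ∑' t, p t * ‖ψ (t * x * s) - ψ (t * x)‖) + 1 * (2 * δ₂)) :=
      h7.hasSum.add (hs.mul_right _)
    have h9 : r x ≤ (∑' s, p s * ∑' t, p t * ‖ψ (t * x * s) - ψ (t * x)‖) + 1 * (2 * δ₂) := by
      rw [← h8.tsum_eq]
      refine (hrs x).tsum_le_tsum (fun s => ?_) h8.summable
      rw [← mul_add]
      exact mul_le_mul_of_nonneg_left (hpt s) (hp s)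
    rw [num_fubini hp hs (F := fun s t => ‖ψ (t * x * s) - ψ (t * x)‖) (C := 4) hFb] at h9
    have h10 : L r x = ∑' t, p t * ∑' s, p s * ‖ψ (t * x * s) - ψ (t * x)‖ := rfl
    rw [h10]
    linarith
  have hLrb : ∀ x, |L r x| ≤ 4 := aL.bdd r 4 hrb
  have hb3 : ∀ x, |1 * L r x + 0 * L r x + 2 * δ₂| ≤ 4 + 2 * δ₂ := fun x => by
    have h1 := abs_le.1 (hLrb x)
    rw [abs_le]
    constructor <;> linarith [h1.1, h1.2]
  have hrL : ∀ j : ℕ, r 1 ≤ L^[j] r 1 + 2 * j * δ₂ := by
    intro j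
    induction j with
    | zero =>
      show r 1 ≤ r 1 + _
      simp
    | succ j ih =>
      have h1 := (aL.iter j).mono r (fun x => 1 * L r x + 0 * L r x + 2 * δ₂) 4 _ hrb hb3 hr3 1
      rw [(aL.iter j).lin (L r) (L r) 4 4 hLrb hLrb 1 0 (2 * δ₂) 1] at h1
      rw [Function.iterate_succ_apply]
      push_cast
      linarith
  have hfin : r 1 = ∑' s, p s * ‖ψ s - ψ 1‖ := by
    show ∑' s, p s * ‖ψ (1 * s) - ψ 1‖ = _
    exact tsum_congr fun s => by rw [one_mul]
  rw [← hfin]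
  have h1 := hrL k
  rw [← hit k r 4 hrb] at h1
  have h2 : (k : ℝ) * δ₂ ≤ N * δ₂ := by
    refine mul_le_mul_of_nonneg_right ?_ hδ2
    exact_mod_cast (Finset.mem_range.1 hk).le
  linarith

end Pool.Agent.H4.L1C
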